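import Pool.Agent.U151.LB.ArcM
import Pool.Agent.U151.OB.Fin
import Pool.Agent.W424.KI.Fin
import Pool.Agent.Results.MP_6bd702_pr.LimitCurves

/-!
# The boundaries of the complementary components of the scaling limits of the outer perimeter of the
largest critical cluster have dimension `4/3`

Critical bond percolation on `ℤ²` in the box `Λ_n = {0, …, n}²`.  `Plain.edges n` is the set of the
edges of `Λ_n` and `Plain.Largest n F v` says that the cluster of `v` has the largest Euclidean
diameter among the clusters of the configuration `F` (a set of open edges of the box).
`IsTrace n F v c` says that `c` is the closed lattice path tracing the boundary of the unbounded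
component of the complement of the cluster of `v`, scaled by `1 / n`.  `Curve` is the space of
curves, with the distance modulo increasing reparametrisation, `c.path : C(unitInterval, ℂ)` is a
parametrisation of `c`, and `lawOf n f` is the law of `f F` when all sets `F` of open edges of the
box are equally likely.  These definitions are those of the starting file
`Pool/Agent/Results/MP_6bd702_pr/LimitCurves.lean` (see there).

The theorem: for all subsequential limits, almost surely the union of the boundaries of all the
components of the complement of the trace has Hausdorff dimension exactly `4/3`, and so has its part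
in the open unit square on ANY arc of the loop which is not a point (all arcs simultaneously).  The
new half is the lower bound.

Proof of the lower bound.  A trial at the tip of a strand of the interface: two open and closed hooks
guide the interface to a square of side `2 a`, in which, with probability bounded below, about
`a ^ (4/3)` vertices have two separated arms and a thick path (a lattice path from the vertex to a
macroscopic distance which keeps away, polynomially, from everything which is connected to the
boundary of a box around the vertex), with the right energy of every order `t < 4/3` (second moments: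
starting library, `Y989.FR`, where this is used near the end point of the exploration path of a
domain, in independent scales).  The hooks connect these vertices to the open cluster and to the
dual cluster next to the strand.  As the interface is explored, fresh trials are made at the tips of
longer and longer strands; so with probability `1 - (1 - δ) ^ K` one of `K` trials succeeds; a union
bound over the (few, on average) starts of strands and the four directions shows that, with
probability close to `1`, every piece of macroscopic diameter of every interface contains a
successful trial, in particular all such pieces of the one which traces the largest cluster.  A side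
potential for the strand shows that the vertices found are visited by this very piece; their thick
paths keep away from the whole cluster; in the limit they become points of the arc on the boundary
of a component.  Closed sets of curves modulo reparametrisation, for all pairs of times at once, give
the passage to the limit.
-/

set_option autoImplicit false

namespace Pool.Agent.Results.MP_6bd702_pr.BoundariesExact

open H342L H342T H342P.Plain MeasureTheory Filter Topology
open scoped ENNReal

/-- The union of the boundaries of all the components of the complement of `K`. -/
def boundaries (K : Set ℂ) : Set ℂ := ⋃ z : ℂ, frontier (connectedComponentIn Kᶜ z)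

/-- The open unit square. -/
def openSquare : Set ℂ := {z | 0 < z.re ∧ z.re < 1 ∧ 0 < z.im ∧ z.im < 1}

/-- Let `C_n` be a cluster of largest Euclidean diameter (`sel` chooses one of them, by any rule) and
`γ_n` the closed lattice path tracing its outer perimeter, divided by `n`.
(1) Every sequence of scales has a subsequence along which the law of `γ_n` converges.
(2) If the law of `γ_n` converges along some sequence of scales, then, almost surely with respect to
the limit `c`: the union of the boundaries of all the components of the complement of the trace has
Hausdorff dimension exactly `4/3`; and for ALL `u, v` in `[0, 1]` such that the arc `c([u, v])` has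
more than one point, the part of this union on the arc, in the open unit square, has Hausdorff
dimension exactly `4/3`. -/
theorem result (sel : (n : ℕ) → Finset Edge → ℤ × ℤ)
    (hsel : ∀ n F, 0 < n → F ⊆ edges n → Largest n F (sel n F))
    (γ : (n : ℕ) → Finset Edge → Curve)
    (hγ : ∀ n F, 0 < n → F ⊆ edges n → IsTrace n F (sel n F) (γ n F)) :
    (∀ k : ℕ → ℕ, Tendsto k atTop atTop → ∃ (φ : ℕ → ℕ) (μ : ProbabilityMeasure Curve),
      StrictMono φ ∧ Tendsto (fun i => lawOf (k (φ i)) (γ (k (φ i)))) atTop (𝓝 μ)) ∧
    ∀ (k : ℕ → ℕ) (μ : ProbabilityMeasure Curve), Tendsto k atTop atTop →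
      Tendsto (fun i => lawOf (k i) (γ (k i))) atTop (𝓝 μ) →
      ∀ᵐ c : Curve ∂(μ : Measure Curve),
        dimH (boundaries (Set.range c.path)) = 4 / 3 ∧
        ∀ u v : unitInterval, ¬ (c.path '' Set.Icc u v).Subsingleton →
          dimH (boundaries (Set.range c.path) ∩ c.path '' Set.Icc u v ∩ openSquare) = 4 / 3 := by
  obtain ⟨hex, hlim⟩ := LimitCurves.result
  obtain ⟨ht, hl⟩ := hlim sel hsel
  have hγ' : ∀ n F, 0 < n → F ⊆ edges n → (γ n F).path 0 = (γ n F).path 1 ∧
      Set.range (γ n F).path = outerBoundary n F (sel n F) := fun n F hn hF =>
    (hex n F (sel n F) hn hF (hsel n F hn hF).1).2 _ (hγ n F hn hF)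
  refine ⟨ht γ hγ, fun k μ hk hμ => ?_⟩
  filter_upwards [hl γ hγ' k μ hk hμ,
    Pool.Agent.U151.OB.acc_all Pool.Agent.W424.KI.u3 ⟨hsel, hγ⟩ hk hμ,
    Pool.Agent.U151.LB.lower ⟨hsel, hγ⟩ hk hμ,
    Pool.Agent.U151.LB.arcsL ⟨hsel, hγ⟩ hk hμ,
    Pool.Agent.U151.LB.meets ⟨hsel, hγ⟩ hk hμ] with c c1 c2 c3 c4 c5
  obtain ⟨-, hdim, -⟩ := c1
  obtain ⟨-, hacc, hout⟩ := c2
  have c3' : (4 / 3 : ℝ≥0∞) ≤ dimH (boundaries (Set.range c.path)) := c3
  have hne : ∃ s t, c.path s ≠ c.path t := by
    by_contra hcon
    push Not at hcon
    have hsub : (Set.range c.path).Subsingleton := by
      rintro _ ⟨s, rfl⟩ _ ⟨t, rfl⟩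
      exact hcon s t
    rw [dimH_subsingleton hsub] at hdim
    have h74 : (0 : ℝ≥0∞) < 7 / 4 := by
      apply ENNReal.div_pos <;> norm_num
    exact absurd hdim h74.ne
  have hb : boundaries (Set.range c.path) ⊆
      ⋃ i : ℕ, Pool.Agent.TH990.FU.Acc (1 / ((i:ℝ) + 1)) c.path :=
    Pool.Agent.TH990.FU.frontiers_acc hne
  have h1 : dimH (boundaries (Set.range c.path)) ≤ 4 / 3 := (dimH_mono hb).trans hacc
  have h2 : dimH (boundaries (Set.range c.path) \ openSquare) ≤ 2 / 3 :=
    (dimH_mono (Set.sdiff_subset_sdiff_left hb)).trans hout
  have hsq : Pool.Agent.U151.LB.Dk 0 = openSquare := by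
    ext z
    show ((0 < z.re ∧ z.re < 1 - 0) ∧ (0 < z.im ∧ z.im < 1 - 0)) ↔
      (0 < z.re ∧ z.re < 1 ∧ 0 < z.im ∧ z.im < 1)
    rw [sub_zero]
    tauto
  refine ⟨le_antisymm h1 c3', fun u v huv1 => ?_⟩
  have huv2 : (c.path '' Set.Icc u v ∩ openSquare).Nonempty := c5 u v huv1
  obtain ⟨A, hA⟩ : ∃ A : Set ℂ, A = boundaries (Set.range c.path) ∩ c.path '' Set.Icc u v :=
    ⟨_, rfl⟩
  have c4' : (4 / 3 : ℝ≥0∞) ≤ dimH A := by
    rw [hA]
    exact c4 u v (by rw [hsq]; exact huv2) huv1
  have hAb : A ⊆ boundaries (Set.range c.path) := by
    rw [hA]
    exact Set.inter_subset_left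
  rw [← hA]
  refine le_antisymm ((dimH_mono Set.inter_subset_left).trans ((dimH_mono hAb).trans h1)) ?_
  have hun : dimH A = max (dimH (A ∩ openSquare)) (dimH (A \ openSquare)) := by
    rw [← dimH_union, Set.inter_union_sdiff]
  rw [hun] at c4'
  rcases le_max_iff.mp c4' with h | h
  · exact h
  · exfalso
    have h5 : (4 / 3 : ℝ≥0∞) ≤ 2 / 3 :=
      h.trans ((dimH_mono (Set.sdiff_subset_sdiff_left hAb)).trans h2)
    have h6 : (2 / 3 : ℝ≥0∞) < 4 / 3 := by
      apply ENNReal.div_lt_div_right <;> norm_num
    exact absurd h5 (not_le.mpr h6)

end Pool.Agent.Results.MP_6bd702_pr.BoundariesExact
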