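import Pool.Agent.U154.BE.Fin

/-!
Critical bond percolation on the square lattice: the Berry-Esseen theorem, with the optimal rate,
for the number of nested layers around the origin.

`changes n ω` is the minimal number of colour changes of a path from the origin to the distance `n`,
i.e. the number of nested alternating (open / dual-open) layers around the origin. Since it is an
integer with standard deviation of order `√(log n)`, no better rate than `1 / √(log n)` is possible.

Definitions: `sqLattice`, `bondLaw`, `hlf` (`= 1/2`), `openGraph` in `Pool.Agent.H974R2.Model`,
`Pool.Agent.H974R2.Infinite`; `Pt`, `Corner`, `Free`, `Change`, `ReachIn`, `norm2`, `changes` in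
`Pool.Agent.H863R2.NL.Defs`; `gaussianReal` is the Gaussian law of Mathlib.

The law on the cylinder is in `Pool.Agent.H863R2`, the link estimates and the tails of the costs of
rectangles in `Pool.Agent.W819.EN` and the modules imported there (starting repository). New here
(`Pool.Agent.U154.UT`, `Pool.Agent.U154.BE`, helper154): the Berry-Esseen theorem for sums of
independent Bernoulli variables (by Fourier inversion of the partial sums), the bound
`P(u ≤ N_n ≤ v) ≤ C (v + 1 - u) / √(log n)` on the concentration function in the plane, by an
inequality which decouples a window of the number of layers in a box from the edges outside half of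
the box, and from it the comparison of the distribution functions of the plane and of the cylinder
with an error `C / √(log n)`.
-/

set_option autoImplicit false

namespace Pool.Agent.Results.MP_6bd702_pr.NestingBerryEsseen

open MeasureTheory ProbabilityTheory H974 Pool.Agent.H863R2.NL
open scoped Real

theorem result : ∃ C : ℝ, ∀ n : ℕ, 2 ≤ n → ∀ x : ℝ,
    |(bondLaw hlf).real {ω | ((changes n ω : ℝ) - Real.log n / (2 * √3 * π)) /
        √((2 / (3 * √3 * π) - 1 / (2 * π ^ 2)) * Real.log n) ≤ x} -
      (gaussianReal 0 1).real (Set.Iic x)| ≤ C / √(Real.log n) := by
  obtain ⟨C, _, h⟩ := Pool.Agent.U154.BE.plane_be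
  refine ⟨C, fun n hn x => ?_⟩
  have e : cN * Real.log n = Real.log n / (2 * √3 * π) := by
    unfold cN
    ring
  have h1 := h n hn x
  rw [e] at h1
  exact h1

end Pool.Agent.Results.MP_6bd702_pr.NestingBerryEsseen
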