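import Pool.Agent.U154.QN.Fn

/-!
Critical bond percolation on the square lattice: in almost every configuration, the law of the
nesting process around a uniformly chosen vertex of the box `[-n, n] ^ 2` converges to the law of
Brownian motion (quenched convergence of the finite-dimensional distributions), with the centering
and the variance predicted for the full scaling limit CLE₆.

`layers m v ω` is the minimal number of colour changes of a path from the vertex `v` to the sup
distance `m` of `v`, i.e. the number of nested alternating (open / dual-open) layers around `v`.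
The average is over the vertices `v` of the box `vb n = [-n, n] ^ 2`, in one configuration `ω` of
the whole lattice; all times `s` in the finite set `I` (the distances `⌊n ^ s⌋`) are taken in the
same configuration, and one null set works for all bounded continuous test functions `f`.

Definitions: `sqLattice`, `bondLaw`, `hlf` (`= 1/2`), `openGraph` in `Pool.Agent.H974R2.Model`,
`Pool.Agent.H974R2.Infinite`; `Pt`, `Corner`, `Free`, `Change` in `Pool.Agent.H863R2.NL.Defs`;
`ReachFrom`, `dist2`, `layers` in `Pool.Agent.W819.EN.Layers`; `vb` in `Pool.Agent.W819.EN.Defs`.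
`IsPreBrownianReal B P` (Mathlib) says that `B` is a process with the finite-dimensional
distributions of Brownian motion.

The central limit theorem for one vertex and one distance is in `Pool.Agent.H863R2`, the link
estimates in `Pool.Agent.W819.EN` (starting repository); the averaged (annealed) convergence is in
`Pool.Agent.U154.NI` and the quenched one in `Pool.Agent.U154.QN` (helper154).
-/

set_option autoImplicit false

namespace Pool.Agent.Results.MP_6bd702_pr.NestingQuenchedBrownianLimit

open MeasureTheory ProbabilityTheory H974 Pool.Agent.H863R2.NL Pool.Agent.W819.EN Filter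
open scoped Real Topology NNReal BoundedContinuousFunction

theorem result {Ω : Type*} [MeasurableSpace Ω] {P : Measure Ω} [IsProbabilityMeasure P]
    {B : ℝ≥0 → Ω → ℝ} (hB : IsPreBrownianReal B P) (I : Finset ℝ≥0) (hI : ∀ s ∈ I, s ≤ 1) :
    ∀ᵐ ω ∂(bondLaw hlf), ∀ f : (I → ℝ) →ᵇ ℝ,
      Tendsto (fun n : ℕ => (∑ v ∈ vb n, f (fun s : I =>
        ((layers ⌊(n : ℝ) ^ ((s : ℝ≥0) : ℝ)⌋₊ v ω : ℝ) -
          (s : ℝ≥0) * (Real.log n / (2 * √3 * π))) /
        √((2 / (3 * √3 * π) - 1 / (2 * π ^ 2)) * Real.log n))) / ((vb n).card : ℝ)) atTop
        (𝓝 (∫ w, f (fun s : I => B s w) ∂P)) := by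
  have e : ∀ n : ℕ, cN * Real.log n = Real.log n / (2 * √3 * π) := by
    intro n
    unfold cN
    ring
  have h := Pool.Agent.U154.QN.quenched_bond hB hI
  simp only [e] at h
  exact h

end Pool.Agent.Results.MP_6bd702_pr.NestingQuenchedBrownianLimit
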