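import Pool.Agent.U151.OB.Fin
import Pool.Agent.W424.KI.Fin
import Pool.Agent.Results.MP_6bd702_pr.LimitCurves

/-!
# The outer boundary of the scaling limits of the outer perimeter of the largest critical cluster

Critical bond percolation on `ℤ²` in the box `Λ_n = {0, …, n}²`.  `Plain.edges n` is the set of the
edges of `Λ_n` and `Plain.Largest n F v` says that the cluster of `v` has the largest Euclidean
diameter among the clusters of the configuration `F` (a set of open edges of the box).
`IsTrace n F v c` says that `c` is the closed lattice path tracing the boundary of the unbounded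
component of the complement of the cluster of `v`, scaled by `1 / n`.  `Curve` is the space of
curves, with the distance modulo increasing reparametrisation, `c.path : C(unitInterval, ℂ)` is a
parametrisation of `c`, and `lawOf n f` is the law of `f F` when all sets `F` of open edges of the
box are equally likely.  These definitions are those of the starting file
`Pool/Agent/Results/MP_6bd702_pr/LimitCurves.lean` (see there).

The outer boundary of a limit `∂` is the boundary of the unbounded component of the complement of its
trace.  The theorem is the upper half of the third claim of the question, for all subsequential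
limits: the outer boundary has Hausdorff dimension at most `4/3`.  The same bound holds for the union
of the boundaries of all the components of the complement; so the points of the trace which are not on
the boundary of any complementary component still have dimension `7/4`.

Proof.  A point of the limit which is accessible from the complement of the trace forces, on the
lattice, a path which avoids the tracing path together with a macroscopic neighbourhood.  A potential
which jumps across the (invariant) set of the states of the tracing path shows that such a path avoids
the open cluster or the closed dual cluster next to the tracing path: three arms between the scales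
`r` and `d`, with probability at most `C (r / d) ^ (2/3)` (starting library, `W424.KI.u3`, `TH990.FU`,
where this is used for the exploration path of a domain).  The part on the sides of the square is
covered with the half-plane one-arm bound.
-/

set_option autoImplicit false

namespace Pool.Agent.Results.MP_6bd702_pr.OuterBoundary

open H342L H342T H342P.Plain MeasureTheory Filter Topology
open scoped ENNReal

/-- The outer boundary of `K`: the boundary of the unbounded component of its complement. -/
def outer (K : Set ℂ) : Set ℂ :=
  frontier {z | z ∈ Kᶜ ∧ ¬ Bornology.IsBounded (connectedComponentIn Kᶜ z)}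

/-- The union of the boundaries of all the components of the complement of `K`. -/
def boundaries (K : Set ℂ) : Set ℂ := ⋃ z : ℂ, frontier (connectedComponentIn Kᶜ z)

/-- The open unit square. -/
def openSquare : Set ℂ := {z | 0 < z.re ∧ z.re < 1 ∧ 0 < z.im ∧ z.im < 1}

/-- Let `C_n` be a cluster of largest Euclidean diameter (`sel` chooses one of them, by any rule) and
`γ_n` the closed lattice path tracing its outer perimeter, divided by `n`.
(1) Every sequence of scales has a subsequence along which the law of `γ_n` converges.
(2) If the law of `γ_n` converges along some sequence of scales, then, almost surely with respect to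
the limit, the trace `K` of the curve has dimension `7/4`, its outer boundary has dimension between
`1` and `4/3`, the union of the boundaries of all the components of the complement of `K` has
dimension at most `4/3`, the parts of these two sets outside of the open unit square have dimension at
most `2/3`, and the points of `K` which are not on the boundary of any component of the complement
have dimension `7/4`. -/
theorem result (sel : (n : ℕ) → Finset Edge → ℤ × ℤ)
    (hsel : ∀ n F, 0 < n → F ⊆ edges n → Largest n F (sel n F))
    (γ : (n : ℕ) → Finset Edge → Curve)
    (hγ : ∀ n F, 0 < n → F ⊆ edges n → IsTrace n F (sel n F) (γ n F)) :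
    (∀ k : ℕ → ℕ, Tendsto k atTop atTop → ∃ (φ : ℕ → ℕ) (μ : ProbabilityMeasure Curve),
      StrictMono φ ∧ Tendsto (fun i => lawOf (k (φ i)) (γ (k (φ i)))) atTop (𝓝 μ)) ∧
    ∀ (k : ℕ → ℕ) (μ : ProbabilityMeasure Curve), Tendsto k atTop atTop →
      Tendsto (fun i => lawOf (k i) (γ (k i))) atTop (𝓝 μ) →
      ∀ᵐ c : Curve ∂(μ : Measure Curve),
        dimH (Set.range c.path) = 7 / 4 ∧
        (1 ≤ dimH (outer (Set.range c.path)) ∧ dimH (outer (Set.range c.path)) ≤ 4 / 3 ∧
          dimH (outer (Set.range c.path) \ openSquare) ≤ 2 / 3) ∧
        (dimH (boundaries (Set.range c.path)) ≤ 4 / 3 ∧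
          dimH (boundaries (Set.range c.path) \ openSquare) ≤ 2 / 3) ∧
        dimH (Set.range c.path \ boundaries (Set.range c.path)) = 7 / 4 := by
  obtain ⟨hex, hlim⟩ := LimitCurves.result
  obtain ⟨ht, hl⟩ := hlim sel hsel
  have hγ' : ∀ n F, 0 < n → F ⊆ edges n → (γ n F).path 0 = (γ n F).path 1 ∧
      Set.range (γ n F).path = outerBoundary n F (sel n F) := fun n F hn hF =>
    (hex n F (sel n F) hn hF (hsel n F hn hF).1).2 _ (hγ n F hn hF)
  refine ⟨ht γ hγ, fun k μ hk hμ => ?_⟩
  filter_upwards [hl γ hγ' k μ hk hμ,
    Pool.Agent.U151.OB.acc_all Pool.Agent.W424.KI.u3 ⟨hsel, hγ⟩ hk hμ] with c c1 c2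
  obtain ⟨-, hdim, -⟩ := c1
  obtain ⟨-, hacc, hout⟩ := c2
  have hne : ∃ s t, c.path s ≠ c.path t := by
    by_contra hcon
    push Not at hcon
    have hsub : (Set.range c.path).Subsingleton := by
      rintro _ ⟨s, rfl⟩ _ ⟨t, rfl⟩
      exact hcon s t
    rw [dimH_subsingleton hsub] at hdim
    have h74 : (0 : ℝ≥0∞) < 7 / 4 := by
      apply ENNReal.div_pos <;> norm_num
    exact absurd hdim h74.ne
  have hb : boundaries (Set.range c.path) ⊆
      ⋃ i : ℕ, Pool.Agent.TH990.FU.Acc (1 / ((i:ℝ) + 1)) c.path :=
    Pool.Agent.TH990.FU.frontiers_acc hne
  have ho : outer (Set.range c.path) ⊆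
      ⋃ i : ℕ, Pool.Agent.TH990.FU.Acc (1 / ((i:ℝ) + 1)) c.path :=
    Pool.Agent.U151.OB.ub_acc hne
  have hout' : ∀ {S : Set ℂ}, S ⊆ ⋃ i : ℕ, Pool.Agent.TH990.FU.Acc (1 / ((i:ℝ) + 1)) c.path →
      dimH (S \ openSquare) ≤ 2 / 3 := fun hS =>
    (dimH_mono (Set.sdiff_subset_sdiff_left hS)).trans hout
  refine ⟨hdim, ⟨?_, (dimH_mono ho).trans hacc, hout' ho⟩,
    ⟨(dimH_mono hb).trans hacc, hout' hb⟩, ?_⟩
  · obtain ⟨s, t, hst⟩ := hne
    exact Pool.Agent.U151.OB.dim_one (isCompact_range c.path.continuous)
      (isPreconnected_range c.path.continuous) ⟨s, rfl⟩ ⟨t, rfl⟩ hst
  · apply le_antisymm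
    · rw [← hdim]
      exact dimH_mono Set.sdiff_subset
    · have hun : dimH (Set.range c.path) ≤
          max (dimH (Set.range c.path \ boundaries (Set.range c.path)))
            (dimH (boundaries (Set.range c.path))) := by
        rw [← dimH_union]
        refine dimH_mono fun z hz => ?_
        by_cases h : z ∈ boundaries (Set.range c.path)
        · exact Or.inr h
        · exact Or.inl ⟨hz, h⟩
      rw [hdim] at hun
      rcases le_max_iff.mp hun with h | h
      · exact h
      · exact absurd (h.trans ((dimH_mono hb).trans hacc)) (not_le.mpr Pool.Agent.U151.OB.lt_4374)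

end Pool.Agent.Results.MP_6bd702_pr.OuterBoundary
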